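import Mathlib

namespace Pool.Agent.Results.MP_02e4ca_lc.No
open Function Set

/-- computably bounded `Π⁰₁` class -/
def CB (P : Set (ℕ → ℕ)) : Prop := ∃ (T : Set (List ℕ)) (g : List ℕ → ℕ), ComputablePred (· ∈ T) ∧ Computable g ∧
  (∀ σ ∈ T, ∀ τ, τ <+: σ → τ ∈ T) ∧ (∀ σ i, σ ++ [i] ∈ T → i < g σ) ∧ P = {x | ∀ n, (List.range n).map x ∈ T}

/-- solutions of the `n`-dimensionality problem -/
def Sol (A : Type) [PartialOrder A] (n : ℕ) : Set (Fin n → A → A → Prop) :=
  {L | (∀ i, IsLinearOrder A (L i)) ∧ ∀ x y, x ≤ y ↔ ∀ i, L i x y}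

theorem ne3 (A : Type) [PartialOrder A] (n : ℕ) : Nat.card (Sol A n) ≠ 3 := fun h => by
  have sub : ∀ L ∈ Sol A n, ∀ σ : Fin n → Fin n, (∀ i, ∃ j, L (σ j) = L i) → L ∘ σ ∈ Sol A n := fun L hL σ e =>
    ⟨fun i => hL.1 _, fun x y => (hL.2 x y).trans ⟨fun h i => h _, fun h i => let ⟨j, e⟩ := e i; e ▸ h j⟩⟩
  have nc : ∀ L ∈ Sol A n, ∃ i j, L i ≠ L j := fun L hL => by
    by_contra c
    push Not at c
    have : ∀ M ∈ Sol A n, M = L := fun M hM => by
      funext i x y
      have t := hL.1 i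
      have t' := hM.1 i
      have k : ∀ x y, L i x y → M i x y := fun x y e => (hM.2 x y).1 ((hL.2 x y).2 fun j => c i j ▸ e) i
      exact propext ⟨fun e => (total_of (L i) x y).elim id fun e' => antisymm_of (M i) e (k _ _ e') ▸ refl_of (L i) x,
        k x y⟩
    have : Subsingleton (Sol A n) := ⟨fun a b => Subtype.ext ((this _ a.2).trans (this _ b.2).symm)⟩
    exact absurd ((Nat.card_of_subsingleton (⟨L, hL⟩ : Sol A n)).symm.trans h) (by omega)
  have : Finite (Sol A n) := Nat.finite_of_card_ne_zero (by omega)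
  obtain ⟨⟨L, hL⟩⟩ := (Nat.card_pos_iff.1 (h ▸ (by omega : 0 < 3) : 0 < Nat.card (Sol A n))).1
  obtain ⟨i, j, ne⟩ := nc L hL
  have ij : i ≠ j := fun e => ne (congrArg L e)
  have sw : ∀ L ∈ Sol A n, ∀ i j, L ∘ Equiv.swap i j ∈ Sol A n := fun L hL i j =>
    sub L hL _ fun k => ⟨Equiv.swap i j k, by simp⟩
  by_cases c : ∃ k, k ≠ i ∧ k ≠ j
  · obtain ⟨k, k1, k2⟩ := c
    wlog e : L k ≠ L j generalizing i j
    · exact this j i ne.symm ij.symm k2 k1 fun e' => ne (e'.symm.trans (not_not.1 e))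
    obtain ⟨M, hM, m⟩ : ∃ M ∈ Sol A n, M j = L j ∧ M k ≠ L k := by
      by_cases e' : L k = L i
      · refine ⟨_, sub L hL (update id k j) fun l => ?_, by simp [k2.symm], by simpa using e.symm⟩
        by_cases a : l = k
        exacts [⟨i, by simp [k1.symm, a, e']⟩, ⟨l, by simp [a]⟩]
      · exact ⟨_, sw L hL i k, by simp [Equiv.swap_apply_of_ne_of_ne ij.symm k2.symm], by simpa using Ne.symm e'⟩
    have s1 : (L ∘ Equiv.swap i j) j = L i ∧ (L ∘ Equiv.swap i j) k = L k := by
      simp [Equiv.swap_apply_of_ne_of_ne k1 k2]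
    have s2 : (L ∘ Equiv.swap k j) j = L k ∧ (L ∘ Equiv.swap k j) k = L j := by simp
    have h1 := sw L hL i j
    have h2 := sw L hL k j
    generalize L ∘ Equiv.swap i j = M1 at s1 h1
    generalize L ∘ Equiv.swap k j = M2 at s2 h2
    have := ncard_le_ncard (s := {L, M, M1, M2}) (t := Sol A n) (by simp [insert_subset_iff, *]) (toFinite _)
    rw [ncard_insert_of_notMem, ncard_insert_of_notMem, ncard_pair, ncard, ← Set.ncard, ← Nat.card_coe_set_eq] at this
    · omega
    · rintro rfl; exact e (s1.2.symm.trans s2.2)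
    · rintro (rfl | rfl)
      exacts [ne (s1.1.symm.trans m.1), e (s2.1.symm.trans m.1)]
    · rintro (rfl | rfl | rfl)
      exacts [m.2 rfl, ne s1.1.symm, e s2.2]
  · push Not at c
    let e := Finite.equivFinOfCardEq h
    let s : Sol A n → Sol A n := fun M => ⟨_, sw M.1 M.2 i j⟩
    obtain ⟨x, hx⟩ := (by decide : ∀ f : Fin 3 → Fin 3, (∀ x, f (f x) = x) → ∃ x, f x = x) (e ∘ s ∘ e.symm) fun x => by
      simp only [comp, e.symm_apply_apply]
      rw [show s (s (e.symm x)) = e.symm x from Subtype.ext (funext fun l => by simp [s]), e.apply_symm_apply]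
    have h1 := congrFun (congrArg Subtype.val ((e.eq_symm_apply).2 hx)) j
    obtain ⟨a, b, h2⟩ := nc _ (e.symm x).2
    simp only [s, comp, Equiv.swap_apply_right] at h1
    have : ∀ a, (e.symm x).1 a = (e.symm x).1 j := fun a => by
      by_cases t : a = i
      exacts [t ▸ h1, c a t ▸ rfl]
    exact h2 ((this a).trans (this b).symm)

theorem result : ∃ P, CB P ∧ ∀ (A : Type) [PartialOrder A] (n : ℕ), IsEmpty (Sol A n ≃ P) := by
  refine ⟨{x | ∀ n, ((List.range n).map x).sum ≤ 2 ∧ ((List.range n).map x).tail.sum = 0},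
    ⟨{σ | σ.sum ≤ 2 ∧ σ.tail.sum = 0}, fun _ => 3, ?_, .const _, ?_, ?_, rfl⟩, fun A _ n => ⟨fun e => ne3 A n ?_⟩⟩
  · have : Primrec fun σ : List ℕ => σ.sum := (Primrec.list_foldr Primrec.id (Primrec.const 0)
      (Primrec.nat_add.comp (Primrec.fst.comp .snd) (Primrec.snd.comp .snd)).to₂).of_eq fun σ => by
        induction σ <;> simp_all
    exact ((Primrec.nat_le.comp this (.const 2)).and
      (Primrec.eq.comp (this.comp Primrec.list_tail) (.const 0))).computablePred
  · rintro _ h (_ | ⟨a, τ⟩) ⟨ρ, rfl⟩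
    · simp
    · simp only [mem_ofPred_eq, List.cons_append, List.tail_cons, List.sum_cons, List.sum_append] at h ⊢; omega
  · intro σ i h
    simp only [mem_ofPred_eq, List.sum_append, List.sum_singleton] at h ⊢; omega
  rw [Nat.card_congr e, show {x : ℕ → ℕ | ∀ n, ((List.range n).map x).sum ≤ 2 ∧ ((List.range n).map x).tail.sum = 0} =
    range fun c : Fin 3 => (Pi.single 0 c.1 : ℕ → ℕ) from ?_, Nat.card_range_of_injective fun a b e =>
      Fin.ext (by simpa using congrFun e 0)]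
  · simp
  ext x
  refine ⟨fun h => ⟨⟨x 0, by have := (h 1).1; simp at this; omega⟩, funext fun m => ?_⟩, ?_⟩
  · rcases m with _ | m
    · simp
    · have := (h (m + 2)).2
      simp only [List.range_succ_eq_map (n := m + 1), List.map_cons, List.tail_cons, List.sum_eq_zero_iff] at this
      simpa using (this _ (List.mem_map_of_mem (List.mem_map_of_mem (List.mem_range.2 m.lt_succ_self)))).symm
  · rintro ⟨c, rfl⟩ (_ | n)
    · simp
    · have := c.2
      simp [List.range_succ_eq_map, comp_def]; omega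

end Pool.Agent.Results.MP_02e4ca_lc.No
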